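import Pool.Graph.R_seed8.Y888.WD.Near
import Pool.Graph.R_seed8.Y151.WD.Tail

/-!
# The entire function `f₀` near the integers
-/

set_option autoImplicit false

open Filter Topology Metric Set

namespace Pool.Agent.Helper25.JB

open Pool.Agent.H723R2.LSW Pool.Agent.Y282.WD Pool.Agent.Y888.WD

/-- the expansion, with real coefficients -/
theorem key' (m : ℤ) : ∃ ε : ℝ, (ε = 1 ∨ ε = -1) ∧ ∀ h : ℂ, f₀ (m + h) - (T m : ℂ) =
      fA h + ε / 2 * fB h + ε / 2 * ((m : ℂ) + 1 / 2) * fD h := by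
  have hsm : Complex.sin (Real.pi * (m : ℂ)) = 0 := by
    rw [mul_comm]; exact Complex.sin_int_mul_pi m
  obtain ⟨ε, hε, hcm⟩ : ∃ ε : ℝ, (ε = 1 ∨ ε = -1) ∧ Complex.cos (Real.pi * (m : ℂ)) = ε := by
    have := Complex.sin_sq_add_cos_sq ((Real.pi : ℂ) * (m : ℂ))
    rw [hsm] at this
    have h2 : Complex.cos (Real.pi * (m : ℂ)) ^ 2 = 1 := by simpa using this
    have h3 : (Complex.cos (Real.pi * (m : ℂ)) - 1) * (Complex.cos (Real.pi * (m : ℂ)) + 1) = 0 := by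
      linear_combination h2
    rcases mul_eq_zero.1 h3 with h4 | h4
    · refine ⟨1, Or.inl rfl, ?_⟩
      push_cast
      linear_combination h4
    · refine ⟨-1, Or.inr rfl, ?_⟩
      push_cast
      linear_combination h4
  have hε2 : (ε : ℂ) ^ 2 = 1 := by rcases hε with rfl | rfl <;> norm_num
  have hT : (T m : ℂ) = m / 2 + (m + 1 / 2) * ((1 - ε) / 2) := by
    rw [← f₀_int]; unfold f₀; rw [hsm, hcm]; ring
  have e1 : ∀ h : ℂ, Complex.cos (Real.pi * (m + h)) = ε * Complex.cos (Real.pi * h) := by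
    intro h
    rw [mul_add, Complex.cos_add, hsm, hcm]; ring
  have e2 : ∀ h : ℂ, Complex.sin (Real.pi * (m + h)) = ε * Complex.sin (Real.pi * h) := by
    intro h
    rw [mul_add, Complex.sin_add, hsm, hcm]; ring
  refine ⟨ε, hε, fun h => ?_⟩
  unfold f₀
  rw [hT, e1, e2]
  simp only [fA, fB, fD]
  linear_combination (-1 / (Real.pi : ℂ) * Complex.cos (Real.pi * h) *
    Complex.sin (Real.pi * h)) * hε2

/-- `f₀` near an integer, with the remainder -/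
theorem expansion : ∃ C : ℝ, 1 ≤ C ∧ ∀ m : ℤ, ∃ c : ℝ, |c| = bt m ∧ ∀ h : ℂ, ‖h‖ ≤ 1 →
    ‖f₀ (m + h) - (T m : ℂ) - c * h ^ 2‖ ≤ C * ‖h‖ ^ 3 * (1 + bt m * ‖h‖) := by
  obtain ⟨C, hC0, hC⟩ := bds
  have hpp := Real.pi_pos
  refine ⟨2 * C ^ 2 + 2 * Real.pi * C + 1, by nlinarith [mul_nonneg hpp.le hC0, sq_nonneg C],
    fun m => ?_⟩
  obtain ⟨ε, hε, h1⟩ := key' m
  have hεn : ‖(ε : ℂ)‖ = 1 := by rcases hε with rfl | rfl <;> simp
  have hεr : |ε| = 1 := by rcases hε with rfl | rfl <;> simp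
  refine ⟨ε * ((m : ℝ) + 1 / 2) * (Real.pi ^ 2 / 4), ?_, fun h hz => ?_⟩
  · rw [abs_mul, abs_mul, hεr, one_mul, abs_of_pos (by positivity : 0 < Real.pi ^ 2 / 4), mul_comm]
    rfl
  obtain ⟨-, bA, bB, bD⟩ := hC h hz
  have hb : bt m = Real.pi ^ 2 / 4 * ‖(m : ℂ) + 1 / 2‖ := by rw [nm]; rfl
  have hb' : ‖(m : ℂ) + 1 / 2‖ = 4 / Real.pi ^ 2 * bt m := by
    rw [hb]
    field_simp
  have hb0 : 0 ≤ bt m := by rw [hb]; positivity
  have e1 : f₀ (m + h) - (T m : ℂ) - ((ε * ((m : ℝ) + 1 / 2) * (Real.pi ^ 2 / 4) : ℝ) : ℂ) * h ^ 2 =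
      fA h + ε / 2 * fB h + ε / 2 * ((m : ℂ) + 1 / 2) * (fD h - Real.pi ^ 2 / 2 * h ^ 2) := by
    rw [h1]
    push_cast
    ring
  rw [e1]
  have e3 : ‖(ε : ℂ) / 2‖ = 1 / 2 := by rw [norm_div, hεn]; norm_num
  have h0 : 0 ≤ ‖h‖ := norm_nonneg h
  calc ‖fA h + ε / 2 * fB h + ε / 2 * ((m : ℂ) + 1 / 2) * (fD h - Real.pi ^ 2 / 2 * h ^ 2)‖
      ≤ ‖fA h‖ + ‖ε / 2 * fB h‖ +
        ‖ε / 2 * ((m : ℂ) + 1 / 2) * (fD h - Real.pi ^ 2 / 2 * h ^ 2)‖ := norm_add₃_le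
    _ = ‖fA h‖ + 1 / 2 * ‖fB h‖ +
        1 / 2 * (4 / Real.pi ^ 2 * bt m) * ‖fD h - Real.pi ^ 2 / 2 * h ^ 2‖ := by
        rw [norm_mul, norm_mul, norm_mul, e3, hb']
    _ ≤ 2 * C ^ 2 * ‖h‖ ^ 3 + 1 / 2 * (Real.pi * C * ‖h‖ ^ 3) +
        1 / 2 * (4 / Real.pi ^ 2 * bt m) * (Real.pi ^ 3 * C * ‖h‖ ^ 4) := by gcongr
    _ = (2 * C ^ 2 + 1 / 2 * (Real.pi * C)) * ‖h‖ ^ 3 +
        2 * Real.pi * C * ‖h‖ ^ 3 * (bt m * ‖h‖) := by
        field_simp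
        ring
    _ ≤ (2 * C ^ 2 + 2 * Real.pi * C + 1) * ‖h‖ ^ 3 * (1 + bt m * ‖h‖) := by
        have h3 : 0 ≤ ‖h‖ ^ 3 := by positivity
        have h4 : 0 ≤ ‖h‖ ^ 3 * (bt m * ‖h‖) := by positivity
        have h5 : 0 ≤ Real.pi * C := by positivity
        nlinarith [mul_nonneg h3 h5, mul_nonneg h4 h5, mul_nonneg h4 (sq_nonneg C)]

/-- `f₀ (m + h) = T m + c h² (1 + η h)` -/
theorem local_form : ∃ C : ℝ, 1 ≤ C ∧ ∀ m : ℤ, ∃ (c : ℝ) (η : ℂ → ℂ), |c| = bt m ∧ Differentiable ℂ η ∧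
    η 0 = 0 ∧ (∀ h : ℂ, f₀ (m + h) = (T m : ℂ) + c * h ^ 2 * (1 + η h)) ∧
    ∀ h : ℂ, ‖h‖ ≤ 1 → ‖η h‖ ≤ C * ‖h‖ * (1 + bt m * ‖h‖) / bt m := by
  obtain ⟨C, hC1, hC⟩ := expansion
  refine ⟨C, hC1, fun m => ?_⟩
  obtain ⟨c, hc, hexp⟩ := hC m
  have hbt : 0 < bt m := by linarith [(Pool.Agent.Y151.WD.t_TAIL.1 m).1]
  have hc0 : (c : ℂ) ≠ 0 := by
    intro h
    have : c = 0 := by exact_mod_cast h
    rw [this, abs_zero] at hc
    linarith
  have hcn : ‖(c : ℂ)‖ = bt m := by rw [Complex.norm_real, Real.norm_eq_abs, hc]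
  set G : ℂ → ℂ := fun h => f₀ (m + h) - (T m : ℂ) with hG
  have hGd : Differentiable ℂ G :=
    (f₀_differentiable.comp ((differentiable_const _).add differentiable_id)).sub_const _
  have hG0 : G 0 = 0 := by simp only [hG, add_zero, f₀_int, sub_self]
  have hG' : deriv G 0 = 0 := by
    have h1 : HasDerivAt G 0 0 := by
      have h2 := f₀_deriv_int m
      have h3 : HasDerivAt (fun h : ℂ => (m : ℂ) + h) 1 0 := by
        simpa using (hasDerivAt_id (0 : ℂ)).const_add (m : ℂ)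
      have h4 : HasDerivAt f₀ 0 ((m : ℂ) + 0) := by rw [add_zero]; exact h2
      have h5 := (h4.comp (0 : ℂ) h3).sub_const (T m : ℂ)
      have h6 : HasDerivAt G (0 * 1) 0 := h5
      rwa [zero_mul] at h6
    exact h1.deriv
  set g1 := dslope G 0 with hg1
  set g2 := dslope g1 0 with hg2
  have hg1d : Differentiable ℂ g1 := by
    rw [← differentiableOn_univ]
    exact (Complex.differentiableOn_dslope univ_mem).2 hGd.differentiableOn
  have hg2d : Differentiable ℂ g2 := by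
    rw [← differentiableOn_univ]
    exact (Complex.differentiableOn_dslope univ_mem).2 hg1d.differentiableOn
  have hfac : ∀ h, G h = h ^ 2 * g2 h := by
    intro h
    have h1 := sub_smul_dslope G 0 h
    have h2 := sub_smul_dslope g1 0 h
    rw [sub_zero, smul_eq_mul, hG0, sub_zero, ← hg1] at h1
    have h3 : g1 0 = 0 := by rw [hg1, dslope_same, hG']
    rw [sub_zero, smul_eq_mul, h3, sub_zero, ← hg2] at h2
    rw [← h1, ← h2]
    ring
  have hne : ∀ h : ℂ, h ≠ 0 → ‖h‖ ≤ 1 → ‖g2 h - c‖ ≤ C * ‖h‖ * (1 + bt m * ‖h‖) := by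
    intro h hh0 hh
    have h1 := hexp h hh
    have h2 : f₀ (m + h) - (T m : ℂ) - c * h ^ 2 = h ^ 2 * (g2 h - c) := by
      have := hfac h
      simp only [hG] at this
      rw [this]; ring
    rw [h2, norm_mul, norm_pow] at h1
    have h3 : 0 < ‖h‖ ^ 2 := by positivity
    have h4 : ‖h‖ ^ 2 * ‖g2 h - c‖ ≤ ‖h‖ ^ 2 * (C * ‖h‖ * (1 + bt m * ‖h‖)) := by
      calc ‖h‖ ^ 2 * ‖g2 h - c‖ ≤ C * ‖h‖ ^ 3 * (1 + bt m * ‖h‖) := h1
        _ = _ := by ring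
    exact le_of_mul_le_mul_left h4 h3
  have h00 : g2 0 = c := by
    have h1 : Tendsto (fun h : ℂ => ‖g2 h - c‖) (𝓝[≠] 0) (𝓝 ‖g2 0 - c‖) :=
      ((hg2d.continuous.sub continuous_const).norm.tendsto 0).mono_left nhdsWithin_le_nhds
    have h2 : Tendsto (fun h : ℂ => C * ‖h‖ * (1 + bt m * ‖h‖)) (𝓝[≠] 0) (𝓝 0) := by
      have h3 : Continuous fun h : ℂ => C * ‖h‖ * (1 + bt m * ‖h‖) := by fun_prop
      have h4 := h3.tendsto 0
      simp only [norm_zero, mul_zero, zero_mul] at h4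
      exact h4.mono_left nhdsWithin_le_nhds
    have h3 : ‖g2 0 - c‖ ≤ 0 := by
      refine le_of_tendsto_of_tendsto h1 h2 ?_
      have h5 : ∀ᶠ h : ℂ in 𝓝[≠] 0, ‖h‖ ≤ 1 := by
        apply Filter.Eventually.filter_mono nhdsWithin_le_nhds
        filter_upwards [closedBall_mem_nhds (0 : ℂ) one_pos] with h hh
        simpa using hh
      filter_upwards [h5, self_mem_nhdsWithin] with h hh hh0
      exact hne h hh0 hh
    have h4 : ‖g2 0 - c‖ = 0 := le_antisymm h3 (norm_nonneg _)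
    exact sub_eq_zero.1 (norm_eq_zero.1 h4)
  refine ⟨c, fun h => g2 h / c - 1, hc, (hg2d.div_const _).sub_const _, ?_, fun h => ?_, fun h hh => ?_⟩
  · show g2 0 / c - 1 = 0
    rw [h00, div_self hc0, sub_self]
  · have h1 := hfac h
    simp only [hG] at h1
    have h2 : (c : ℂ) * h ^ 2 * (1 + (g2 h / c - 1)) = h ^ 2 * g2 h := by field_simp; ring
    rw [h2, ← h1]
    ring
  · show ‖g2 h / c - 1‖ ≤ _
    have e : g2 h / c - 1 = (g2 h - c) / c := by field_simp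
    rw [e, norm_div, hcn]
    gcongr
    by_cases hh0 : h = 0
    · rw [hh0, h00]; simp
    · exact hne h hh0 hh

end Pool.Agent.Helper25.JB
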