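import Pool.Agent.Helper25.JB.Riem
import Pool.Agent.Helper25.JB.Loc
import Pool.Graph.R_seed8.Y282.WD.Deg
import Pool.Graph.R_seed8.Y514.WD.Sch
import Pool.Graph.R_seed8.Y811.WD.Back
import Pool.Graph.R_seed8.Y319.WD.Har

/-!
# The Fatou components of `f₀` at integers with large orbits: assembly
-/

set_option autoImplicit false

open Filter Topology Metric Set

namespace Pool.Agent.Helper25.JB

open Pool.Agent.H384R2.Fatou Pool.Agent.H723R2.LSW Pool.Agent.Y282.WD

/-- the orbit of every point of the component comes close to the orbit of the integer -/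
theorem approach {m : ℤ} {w : ℂ} (hw : w ∈ FatouComponent f₀ (m : ℂ)) :
    ∃ j : ℕ, ‖f₀^[j] w - ((T^[j] m : ℤ) : ℂ)‖ < 1 / 2 * rho (T^[j] m) := by
  have hT := Pool.Agent.Y151.WD.t_TAIL
  by_cases hm : Wild m
  · obtain ⟨A, C1, B, c, hK⟩ := exists_consts Pool.Agent.Y888.WD.t_NEAR Pool.Agent.Y888.WD.t_LOW
    obtain ⟨q, hq0, hq1, hq⟩ := fast hK hT Pool.Agent.Y514.WD.sch Pool.Agent.Y319.WD.t_HAR hm hw
    have hb := bt_pos m hT
    have h1 : Tendsto (fun j : ℕ => ((2 ^ j : ℕ) : ℝ) * q ^ (2 ^ j)) atTop (𝓝 0) :=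
      (tendsto_self_mul_const_pow_of_lt_one hq0 hq1).comp
        (tendsto_pow_atTop_atTop_of_one_lt (by norm_num : 1 < 2))
    have h2 : (0 : ℝ) < 1 / (4 * bt m) := by positivity
    obtain ⟨j, hj1, hj2⟩ := (hq.and (h1.eventually (gt_mem_nhds h2))).exists
    refine ⟨j, ?_⟩
    have h3 := bt_iter_le hK hT m j
    obtain ⟨hr0, -, hr1, -⟩ := hT.2 (T^[j] m)
    have hbj := bt_pos (T^[j] m) hT
    have h4 : (2 : ℝ) ^ j * q ^ (2 ^ j) < 1 / (4 * bt m) := by
      have := hj2
      push_cast at this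
      exact this
    rw [lt_div_iff₀ (by positivity)] at h4
    have h5 : q ^ (2 ^ j) * (4 * (bt m * 2 ^ j)) < 1 := by
      calc q ^ (2 ^ j) * (4 * (bt m * 2 ^ j)) = 2 ^ j * q ^ (2 ^ j) * (4 * bt m) := by ring
        _ < 1 := h4
    have h6 : q ^ (2 ^ j) * (4 * bt (T^[j] m)) < 1 := by
      refine lt_of_le_of_lt ?_ h5
      have : 0 ≤ q ^ (2 ^ j) := by positivity
      gcongr
    refine lt_of_le_of_lt hj1 ?_
    by_contra hcon
    push Not at hcon
    have h7 : 1 / 2 * rho (T^[j] m) * (4 * bt (T^[j] m)) ≤ q ^ (2 ^ j) * (4 * bt (T^[j] m)) := by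
      gcongr
    linarith
  · obtain ⟨k, p, a, hp, ha, hk⟩ := tame_hits hm
    have h1 := basin_of_hits (f := f₀) (a := (a : ℂ)) (p := p) (k := k) f₀_differentiable hp
      (by rw [f₀_iter, ha]) (f₀_iter_deriv a p hp) (by rw [f₀_iter, hk]) w hw
    have hr := (hT.2 a).1
    have h2 : ∀ᶠ i : ℕ in atTop, ‖f₀^[k + p * i] w - a‖ < 1 / 2 * rho a := by
      have h3 := (tendsto_iff_norm_sub_tendsto_zero.1 h1).eventually
        (gt_mem_nhds (by positivity : 0 < 1 / 2 * rho a))
      exact h3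
    obtain ⟨i, hi⟩ := h2.exists
    have h3 : T^[k + p * i] m = a := by
      rw [add_comm, Function.iterate_add_apply, hk, Function.iterate_mul]
      exact Function.iterate_fixed ha i
    refine ⟨k + p * i, ?_⟩
    rw [h3]
    exact hi

theorem back_iter {z : ℂ} (j : ℕ) : f₀^[j] z ∈ FatouSet f₀ → z ∈ FatouSet f₀ := by
  induction j with
  | zero => exact fun h => h
  | succ j ih =>
    intro h
    rw [Function.iterate_succ_apply'] at h
    exact ih (Pool.Agent.Y811.WD.t_BACK _ h)

/-- points whose orbits approach the orbit of an integer fast, in an open set -/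
theorem mem_fatou {m : ℤ} {A : Set ℂ} (hA : IsOpen A)
    (h : ∀ w ∈ A, (∀ j : ℕ, ‖f₀^[j] w - ((T^[j] m : ℤ) : ℂ)‖ ≤ 1) ∧
      Tendsto (fun j : ℕ => ‖f₀^[j] w - ((T^[j] m : ℤ) : ℂ)‖) atTop (𝓝 0)) : A ⊆ FatouSet f₀ := by
  intro w hw
  by_cases hm : Wild m
  · obtain ⟨r, hr, hsub⟩ := Metric.isOpen_iff.1 hA w hw
    exact ⟨r, hr, near_normal hm fun z hz j => (h z (hsub hz)).1 j⟩
  · obtain ⟨k, p, a, hp, ha, hk⟩ := tame_hits hm
    obtain ⟨r, hr, hsub⟩ := Metric.isOpen_iff.1 (isOpen_fatou f₀) a (int_mem_fatou a)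
    have h1 := (h w hw).2
    have h2 : Tendsto (fun i : ℕ => k + p * i) atTop atTop := by
      refine tendsto_atTop_mono (fun i => ?_) tendsto_id
      have : i ≤ p * i := Nat.le_mul_of_pos_left i hp
      simp only [id]
      omega
    obtain ⟨i, hi⟩ := ((h1.comp h2).eventually (gt_mem_nhds hr)).exists
    have h3 : T^[k + p * i] m = a := by
      rw [add_comm, Function.iterate_add_apply, hk, Function.iterate_mul]
      exact Function.iterate_fixed ha i
    simp only [Function.comp_apply, h3] at hi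
    apply back_iter (k + p * i)
    apply hsub
    rw [mem_ball, dist_eq_norm]
    exact hi

/-! ### dimensions -/

theorem dimH_circle : dimH (sphere (0 : ℂ) 1) ≤ 1 := by
  rw [← Complex.range_exp_mul_I]
  have h : ContDiff ℝ 1 fun x : ℝ => Complex.exp (x * Complex.I) := by
    have h1 : ContDiff ℝ 1 fun x : ℝ => (x : ℂ) * Complex.I :=
      Complex.ofRealCLM.contDiff.mul contDiff_const
    exact h1.cexp
  have h2 := h.dimH_range_le
  simpa using h2

theorem one_le_dimH {V : Set ℂ} (hV : IsOpen V) (hne : V.Nonempty) (hb : Bornology.IsBounded V) :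
    1 ≤ dimH (frontier V) := by
  have h1 : Complex.re '' V ⊆ Complex.re '' frontier V := by
    rintro _ ⟨u, hu, rfl⟩
    have hconv : IsPreconnected {w : ℂ | w.re = u.re} := by
      apply Convex.isPreconnected
      have : {w : ℂ | w.re = u.re} = Complex.reLm ⁻¹' {u.re} := by
        ext w; simp
      rw [this]
      exact (convex_singleton _).linear_preimage _
    obtain ⟨R, hR⟩ := hb.subset_closedBall 0
    have hcl : closure V ⊆ closedBall 0 R := closure_minimal hR isClosed_closedBall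
    by_contra hcon
    have hno : ∀ w : ℂ, w.re = u.re → w ∉ frontier V := by
      intro w hw1 hw2
      exact hcon ⟨w, hw2, hw1⟩
    have h2 := hconv V (closure V)ᶜ hV isClosed_closure.isOpen_compl (fun w hw => by
      by_cases hwV : w ∈ V
      · exact Or.inl hwV
      · right
        intro hwc
        apply hno w hw
        rw [hV.frontier_eq]
        exact ⟨hwc, hwV⟩) ⟨u, rfl, hu⟩ ⟨⟨u.re, |R| + 1⟩, rfl, fun hmem => by
          have h3 := hcl hmem
          rw [mem_closedBall, dist_zero_right] at h3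
          have h4 := Complex.abs_im_le_norm (⟨u.re, |R| + 1⟩ : ℂ)
          simp only at h4
          have h5 : |(|R| + 1)| = |R| + 1 := abs_of_pos (by positivity)
          rw [h5] at h4
          linarith [le_abs_self R]⟩
    obtain ⟨w, -, hw1, hw2⟩ := h2
    exact hw2 (subset_closure hw1)
  have h2 : dimH (Complex.re '' V) = 1 := by
    have h3 : IsOpen (Complex.re '' V) := Complex.isOpenMap_re V hV
    have h4 : (interior (Complex.re '' V)).Nonempty := by
      rw [h3.interior_eq]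
      exact hne.image _
    exact Real.dimH_of_nonempty_interior (E := ℝ) h4 |>.trans (by simp)
  calc (1 : ENNReal) = dimH (Complex.re '' V) := h2.symm
    _ ≤ dimH (Complex.re '' frontier V) := dimH_mono h1
    _ ≤ dimH (frontier V) := Complex.reCLM.lipschitz.dimH_image_le _

theorem dimH_le {Φ : ℂ → ℂ} {K α : ℝ} (hK : 0 ≤ K) (hα : 0 < α)
    (h : ∀ z w : ℂ, ‖z‖ ≤ 1 → ‖w‖ ≤ 1 → ‖Φ z - Φ w‖ ≤ K * ‖z - w‖ ^ α) :
    dimH (Φ '' sphere 0 1) ≤ ENNReal.ofReal (1 / α) := by
  have hH : HolderOnWith K.toNNReal α.toNNReal Φ (sphere 0 1) := by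
    intro x hx y hy
    rw [mem_sphere, dist_zero_right] at hx hy
    have h1 := h x y hx.le hy.le
    rw [edist_dist, edist_dist, dist_eq_norm, dist_eq_norm, Real.coe_toNNReal α hα.le,
      ENNReal.ofReal_rpow_of_nonneg (norm_nonneg _) hα.le]
    change ENNReal.ofReal ‖Φ x - Φ y‖ ≤ ENNReal.ofReal K * ENNReal.ofReal (‖x - y‖ ^ α)
    rw [← ENNReal.ofReal_mul hK]
    exact ENNReal.ofReal_le_ofReal h1
  have h2 := hH.dimH_image_le (Real.toNNReal_pos.2 hα)
  refine h2.trans ?_
  change dimH (sphere (0 : ℂ) 1) / ENNReal.ofReal α ≤ _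
  calc dimH (sphere (0 : ℂ) 1) / ENNReal.ofReal α ≤ 1 / ENNReal.ofReal α := by
        gcongr
        exact dimH_circle
    _ = ENNReal.ofReal (1 / α) := by
        rw [ENNReal.ofReal_div_of_pos hα, ENNReal.ofReal_one]

end Pool.Agent.Helper25.JB
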