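import Pool.Agent.Helper25.JB.Asm

/-!
# The Fatou components of `f₀` at integers with large orbits: Jordan domains
-/

set_option autoImplicit false

open Filter Topology Metric Set

namespace Pool.Agent.Helper25.JB

open Pool.Agent.H384R2.Fatou Pool.Agent.H723R2.LSW Pool.Agent.Y282.WD

theorem orbit_shift (n : ℤ) (k j : ℕ) : T^[j] (T^[k] n) = T^[k + j] n := by
  rw [add_comm, Function.iterate_add_apply]

theorem main : ∃ C : ℝ, 1 ≤ C ∧ ∀ n : ℤ, (∀ j : ℕ, C ≤ |((T^[j] n : ℤ) : ℝ)|) →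
    ∃ (τ : ℕ → ℝ) (Ψ : ℕ → ℂ → ℂ), ∀ k : ℕ,
      |τ k| = rho (T^[k] n) ∧ HasDerivAt (Ψ k) (τ k : ℂ) 0 ∧ Ψ k 0 = ((T^[k] n : ℤ) : ℂ) ∧
      ContinuousOn (Ψ k) (closedBall 0 1) ∧ InjOn (Ψ k) (closedBall 0 1) ∧
      DifferentiableOn ℂ (Ψ k) (ball 0 1) ∧
      (∀ z : ℂ, ‖z‖ ≤ 1 → f₀ (Ψ k z) = Ψ (k + 1) (z ^ 2)) ∧
      Ψ k '' ball 0 1 = FatouComponent f₀ ((T^[k] n : ℤ) : ℂ) ∧
      Ψ k '' closedBall 0 1 = closure (FatouComponent f₀ ((T^[k] n : ℤ) : ℂ)) ∧
      Ψ k '' sphere 0 1 = frontier (FatouComponent f₀ ((T^[k] n : ℤ) : ℂ)) ∧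
      1 ≤ dimH (frontier (FatouComponent f₀ ((T^[k] n : ℤ) : ℂ))) ∧
      ∀ M : ℝ, C ≤ M → (∀ j : ℕ, M ≤ |((T^[k + j] n : ℤ) : ℝ)|) →
        (∀ z : ℂ, ‖z‖ ≤ 1 →
          ‖Ψ k z - (((T^[k] n : ℤ) : ℂ) + τ k * z)‖ ≤ C / M ^ 2 * rho (T^[k] n) * ‖z‖) ∧
        dimH (frontier (FatouComponent f₀ ((T^[k] n : ℤ) : ℂ))) ≤ ENNReal.ofReal (1 + C / M ^ 2) := by
  have hT := Pool.Agent.Y151.WD.t_TAIL
  obtain ⟨C1, hC1, hloc⟩ := local_form
  choose c η hc hηd hη0 hf hηb using hloc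
  -- the constant
  refine ⟨2520 * C1, by linarith, fun n hn => ?_⟩
  set x : ℕ → ℤ := fun k => T^[k] n with hx
  have hxs : ∀ k, T (x k) = x (k + 1) := fun k => by
    simp only [hx, Function.iterate_succ_apply']
  -- the multipliers
  obtain ⟨τ, hτ0, hτs⟩ : ∃ τ : ℕ → ℝ, τ 0 = rho (x 0) ∧ ∀ k : ℕ, τ (k + 1) = c (x k) * τ k ^ 2 :=
    ⟨fun k => Nat.rec (rho (x 0)) (fun k t => c (x k) * t ^ 2) k, rfl, fun k => rfl⟩
  have hτ : ∀ k, |τ k| = rho (x k) := by
    intro k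
    induction k with
    | zero => rw [hτ0, abs_of_pos (hT.2 _).1]
    | succ k ih =>
      rw [hτs, abs_mul, abs_pow, ih, hc, ← hxs, (hT.2 (x k)).2.1]
  have hρ0 : ∀ k, 0 < rho (x k) := fun k => (hT.2 (x k)).1
  have hτne : ∀ k : ℕ, (τ k : ℂ) ≠ 0 := by
    intro k h
    have h1 : τ k = 0 := by exact_mod_cast h
    have := hτ k
    rw [h1, abs_zero] at this
    linarith [hρ0 k]
  have hτn : ∀ k : ℕ, ‖(τ k : ℂ)‖ = rho (x k) := fun k => by
    rw [Complex.norm_real, Real.norm_eq_abs, hτ]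
  -- the size of `η`
  have hbt : ∀ (M : ℝ) (k : ℕ), 2520 * C1 ≤ M → M ≤ |((x k : ℤ) : ℝ)| → M ≤ bt (x k) := by
    intro M k h1 h2
    exact bt_ge (by linarith) h2
  have hη : ∀ (M : ℝ) (k : ℕ), 2520 * C1 ≤ M → M ≤ |((x k : ℤ) : ℝ)| → ∀ v ∈ ball (0 : ℂ) 2,
      ‖η (x k) (τ k * v)‖ ≤ 42 * C1 / M ^ 2 := by
    intro M k h1 h2 v hv
    have hb := hbt M k h1 h2
    have hM0 : 0 < M := by linarith
    have hb0 : 0 < bt (x k) := by linarith
    obtain ⟨hr0, -, -, hr2⟩ := hT.2 (x k)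
    rw [mem_ball, dist_zero_right] at hv
    have h3 : bt (x k) * ‖(τ k : ℂ) * v‖ ≤ 6 := by
      rw [norm_mul, hτn]
      calc bt (x k) * (rho (x k) * ‖v‖) = bt (x k) * rho (x k) * ‖v‖ := by ring
        _ ≤ 3 * 2 := by gcongr
        _ = 6 := by norm_num
    have h4 : ‖(τ k : ℂ) * v‖ ≤ 6 / bt (x k) := by
      rw [le_div_iff₀ hb0]; linarith
    have h5 : ‖(τ k : ℂ) * v‖ ≤ 1 := by
      refine h4.trans ?_
      rw [div_le_one hb0]
      linarith
    calc ‖η (x k) (τ k * v)‖ ≤ C1 * ‖(τ k : ℂ) * v‖ * (1 + bt (x k) * ‖(τ k : ℂ) * v‖) / bt (x k) :=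
          hηb _ _ h5
      _ ≤ C1 * (6 / bt (x k)) * (1 + 6) / bt (x k) := by gcongr
      _ = 42 * C1 / bt (x k) ^ 2 := by
          field_simp
          ring
      _ ≤ 42 * C1 / M ^ 2 := by gcongr
  have hsm : ∀ M : ℝ, 2520 * C1 ≤ M → 42 * C1 / M ^ 2 ≤ 1 / 60 := by
    intro M h1
    have hM0 : 0 < M := by linarith
    rw [div_le_div_iff₀ (by positivity) (by norm_num)]
    nlinarith
  -- the functions `L k`
  set L : ℕ → ℂ → ℂ := fun k v => Complex.log (1 + η (x k) (τ k * v)) with hL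
  have hself : ∀ k, 2520 * C1 ≤ |((x k : ℤ) : ℝ)| := fun k => hn k
  have hηs : ∀ k, ∀ v ∈ ball (0 : ℂ) 2, ‖η (x k) (τ k * v)‖ ≤ 1 / 60 := fun k v hv =>
    (hη (2520 * C1) k le_rfl (hself k) v hv).trans (hsm _ le_rfl)
  have hLd : ∀ k, DifferentiableOn ℂ (L k) (ball 0 2) := by
    intro k v hv
    have h1 : DifferentiableAt ℂ (fun v : ℂ => 1 + η (x k) (τ k * v)) v := by
      refine DifferentiableAt.const_add _ ?_
      exact (hηd (x k) _).comp v ((differentiableAt_id).const_mul _)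
    have h2 : 1 + η (x k) (τ k * v) ∈ Complex.slitPlane := by
      apply Complex.mem_slitPlane_of_norm_lt_one
      have := hηs k v hv
      linarith
    exact (h1.clog h2).differentiableWithinAt
  have hLM : ∀ (M : ℝ) (k : ℕ), 2520 * C1 ≤ M → M ≤ |((x k : ℤ) : ℝ)| → ∀ v ∈ ball (0 : ℂ) 2,
      ‖L k v‖ ≤ 63 * C1 / M ^ 2 := by
    intro M k h1 h2 v hv
    have h3 := hη M k h1 h2 v hv
    have h4 := Complex.norm_log_one_add_half_le_self (z := η (x k) (τ k * v))
      (by have := hηs k v hv; linarith)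
    refine h4.trans ?_
    calc 3 / 2 * ‖η (x k) (τ k * v)‖ ≤ 3 / 2 * (42 * C1 / M ^ 2) := by gcongr
      _ = 63 * C1 / M ^ 2 := by ring
  have hL0 : ∀ k, L k 0 = 0 := by
    intro k
    simp only [hL, mul_zero, hη0, add_zero, Complex.log_one]
  have hLexp : ∀ k, ∀ v ∈ ball (0 : ℂ) 2, Complex.exp (L k v) = 1 + η (x k) (τ k * v) := by
    intro k v hv
    apply Complex.exp_log
    intro h
    have h1 := hηs k v hv
    have h2 : η (x k) (τ k * v) = -1 := by linear_combination h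
    rw [h2, norm_neg, norm_one] at h1
    norm_num at h1
  have hδM : ∀ M : ℝ, 2520 * C1 ≤ M → 0 ≤ 63 * C1 / M ^ 2 ∧ 63 * C1 / M ^ 2 ≤ 1 / 40 := by
    intro M h1
    have hM0 : 0 < M := by linarith
    have := hsm M h1
    refine ⟨by positivity, ?_⟩
    calc 63 * C1 / M ^ 2 = 3 / 2 * (42 * C1 / M ^ 2) := by ring
      _ ≤ 3 / 2 * (1 / 60) := by gcongr
      _ = 1 / 40 := by norm_num
  obtain ⟨hδ0, hδ⟩ := hδM (2520 * C1) le_rfl
  set δ := 63 * C1 / (2520 * C1) ^ 2 with hδdef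
  have hM : Maps δ L (Phi L) := maps_Phi hδ0 hδ hLd
    (fun k => hLM (2520 * C1) k le_rfl (hself k)) hL0
  -- the maps
  set Ψ : ℕ → ℂ → ℂ := fun k z => ((x k : ℤ) : ℂ) + τ k * Phi L k z with hΨ
  have hball : ∀ k, ∀ z : ℂ, ‖z‖ ≤ 1 → Phi L k z ∈ ball (0 : ℂ) 2 := by
    intro k z hz
    rw [mem_ball, dist_zero_right]
    have := upper hM hδ k hz
    linarith
  have hfun : ∀ k, ∀ z : ℂ, ‖z‖ ≤ 1 → f₀ (Ψ k z) = Ψ (k + 1) (z ^ 2) := by
    intro k z hz
    have h1 := hM.func k z hz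
    rw [hLexp k _ (hball k z hz)] at h1
    show f₀ (((x k : ℤ) : ℂ) + τ k * Phi L k z) = ((x (k + 1) : ℤ) : ℂ) + τ (k + 1) * Phi L (k + 1) (z ^ 2)
    rw [hf, ← h1, hxs, hτs]
    push_cast
    ring
  have hiter : ∀ j k, ∀ z : ℂ, ‖z‖ ≤ 1 → f₀^[j] (Ψ k z) = Ψ (k + j) (z ^ (2 ^ j)) := by
    intro j
    induction j with
    | zero => intro k z _; simp
    | succ j ih =>
      intro k z hz
      rw [Function.iterate_succ_apply', ih k z hz, hfun (k + j) _ (pow_le hz j), pow_succ']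
      rfl
  have hdist : ∀ j k, ∀ z : ℂ, ‖z‖ ≤ 1 → ‖f₀^[j] (Ψ k z) - ((T^[j] (x k) : ℤ) : ℂ)‖ =
      rho (x (k + j)) * ‖Phi L (k + j) (z ^ (2 ^ j))‖ := by
    intro j k z hz
    have e1 : T^[j] (x k) = x (k + j) := orbit_shift n k j
    rw [hiter j k z hz, e1]
    show ‖((x (k + j) : ℤ) : ℂ) + τ (k + j) * Phi L (k + j) (z ^ (2 ^ j)) - ((x (k + j) : ℤ) : ℂ)‖ = _
    rw [add_sub_cancel_left, norm_mul, hτn]
  have hρ1 : ∀ k, rho (x k) ≤ 1 / 2 := by
    intro k
    obtain ⟨hr0, -, -, hr2⟩ := hT.2 (x k)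
    have hb := hbt (2520 * C1) k le_rfl (hself k)
    nlinarith
  -- openness
  have hopen : ∀ k, IsOpen (Ψ k '' ball 0 1) := by
    intro k
    have h1 := isOpen_image hM hδ0 hδ k isOpen_ball subset_rfl
    have h2 : Ψ k '' ball 0 1 = (fun w : ℂ => ((x k : ℤ) : ℂ) + τ k * w) '' (Phi L k '' ball 0 1) := by
      rw [image_image]
    rw [h2]
    exact (((Homeomorph.mulLeft₀ (τ k : ℂ) (hτne k)).trans
      (Homeomorph.addLeft ((x k : ℤ) : ℂ))).isOpenMap) _ h1
  have hcont : ∀ k, ContinuousOn (Ψ k) (closedBall 0 1) := fun k =>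
    continuousOn_const.add (continuousOn_const.mul (contOn hM hδ k))
  have hinj : ∀ k, InjOn (Ψ k) (closedBall 0 1) := by
    intro k z hz w hw h
    apply injOn hM hδ0 hδ k hz hw
    have h1 : (τ k : ℂ) * Phi L k z = τ k * Phi L k w := add_left_cancel h
    exact mul_left_cancel₀ (hτne k) h1
  have hz0 : ∀ k, Ψ k 0 = ((x k : ℤ) : ℂ) := by
    intro k
    show ((x k : ℤ) : ℂ) + τ k * Phi L k 0 = _
    rw [zero hM k, mul_zero, add_zero]
  -- the image is the component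
  have himage : ∀ k, Ψ k '' ball 0 1 = FatouComponent f₀ ((x k : ℤ) : ℂ) := by
    intro k
    have hsub : Ψ k '' ball 0 1 ⊆ FatouSet f₀ := by
      apply mem_fatou (m := x k) (hopen k)
      rintro _ ⟨z, hz, rfl⟩
      rw [mem_ball, dist_zero_right] at hz
      refine ⟨fun j => ?_, ?_⟩
      · rw [hdist j k z hz.le]
        have h1 := upper hM hδ (k + j) (pow_le hz.le j)
        have h2 := pow_le hz.le j
        have h3 := hρ1 (k + j)
        have h4 := hρ0 (k + j)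
        calc rho (x (k + j)) * ‖Phi L (k + j) (z ^ (2 ^ j))‖ ≤ 1 / 2 * (21 / 20 * 1) := by
              gcongr
              exact h1.trans (by gcongr)
          _ ≤ 1 := by norm_num
      · have h1 : Tendsto (fun j : ℕ => ‖z‖ ^ (2 ^ j)) atTop (𝓝 0) :=
          (tendsto_pow_atTop_nhds_zero_of_lt_one (norm_nonneg _) hz).comp
            (tendsto_pow_atTop_atTop_of_one_lt (by norm_num : 1 < 2))
        refine squeeze_zero (fun _ => norm_nonneg _) (fun j => ?_) h1
        rw [hdist j k z hz.le]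
        have h1 := upper hM hδ (k + j) (pow_le hz.le j)
        have h3 := hρ1 (k + j)
        have h4 := hρ0 (k + j)
        rw [norm_pow] at h1
        have h5 : 0 ≤ ‖z‖ ^ (2 ^ j) := by positivity
        calc rho (x (k + j)) * ‖Phi L (k + j) (z ^ (2 ^ j))‖ ≤ 1 / 2 * (21 / 20 * ‖z‖ ^ (2 ^ j)) := by
              gcongr
          _ ≤ ‖z‖ ^ (2 ^ j) := by linarith
    apply Subset.antisymm
    · apply IsPreconnected.subset_connectedComponentIn
      · exact (convex_ball (0 : ℂ) 1).isPreconnected.image _ ((hcont k).mono ball_subset_closedBall)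
      · exact ⟨0, by simp, hz0 k⟩
      · exact hsub
    · have hU : IsPreconnected (FatouComponent f₀ ((x k : ℤ) : ℂ)) := isPreconnected_connectedComponentIn
      apply hU.subset_of_closure_inter_subset (hopen k)
      · exact ⟨((x k : ℤ) : ℂ), mem_connectedComponentIn (int_mem_fatou _), ⟨0, by simp, hz0 k⟩⟩
      · rintro w ⟨hw1, hw2⟩
        have hcl : closure (Ψ k '' ball 0 1) ⊆ Ψ k '' closedBall 0 1 :=
          closure_minimal (image_mono ball_subset_closedBall)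
            ((isCompact_closedBall (0 : ℂ) 1).image_of_continuousOn (hcont k)).isClosed
        obtain ⟨z, hz, rfl⟩ := hcl hw1
        rw [mem_closedBall, dist_zero_right] at hz
        rcases lt_or_eq_of_le hz with hz1 | hz1
        · exact ⟨z, by rwa [mem_ball, dist_zero_right], rfl⟩
        · exfalso
          obtain ⟨j, hj⟩ := approach hw2
          rw [hdist j k z hz, orbit_shift] at hj
          have h1 := lower hM hδ (k + j) (pow_le hz j)
          rw [norm_pow, hz1, one_pow] at h1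
          have h4 := hρ0 (k + j)
          have h5 : rho (x (k + j)) * (19 / 20 * 1) ≤ rho (x (k + j)) * ‖Phi L (k + j) (z ^ (2 ^ j))‖ := by
            gcongr
          have h6 : rho (T^[k + j] n) = rho (x (k + j)) := rfl
          rw [h6] at hj
          linarith
  have hclos : ∀ k, Ψ k '' closedBall 0 1 = closure (FatouComponent f₀ ((x k : ℤ) : ℂ)) := by
    intro k
    rw [← himage k]
    apply Subset.antisymm
    · have h1 : ContinuousOn (Ψ k) (closure (ball 0 1)) := by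
        rw [closure_ball (0 : ℂ) one_ne_zero]; exact hcont k
      have h2 := h1.image_closure
      rwa [closure_ball (0 : ℂ) one_ne_zero] at h2
    · exact closure_minimal (image_mono ball_subset_closedBall)
        ((isCompact_closedBall (0 : ℂ) 1).image_of_continuousOn (hcont k)).isClosed
  have hfront : ∀ k, Ψ k '' sphere 0 1 = frontier (FatouComponent f₀ ((x k : ℤ) : ℂ)) := by
    intro k
    rw [(component_isOpen f₀ _).frontier_eq, ← hclos k, ← himage k]
    ext w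
    constructor
    · rintro ⟨z, hz, rfl⟩
      refine ⟨⟨z, sphere_subset_closedBall hz, rfl⟩, ?_⟩
      rintro ⟨z', hz', he⟩
      have := hinj k (ball_subset_closedBall hz') (sphere_subset_closedBall hz) he
      rw [this, mem_ball] at hz'
      rw [mem_sphere] at hz
      linarith
    · rintro ⟨⟨z, hz, rfl⟩, h2⟩
      refine ⟨z, ?_, rfl⟩
      rw [mem_sphere]
      rw [mem_closedBall] at hz
      rcases lt_or_eq_of_le hz with h3 | h3
      · exact absurd ⟨z, mem_ball.2 h3, rfl⟩ h2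
      · exact h3
  refine ⟨τ, Ψ, fun k => ⟨hτ k, ?_, hz0 k, hcont k, hinj k, ?_, hfun k, himage k, hclos k, hfront k,
    ?_, ?_⟩⟩
  · have h1 := ((hM.der k).const_mul (τ k : ℂ)).const_add ((x k : ℤ) : ℂ)
    rw [mul_one] at h1
    exact h1
  · exact ((hM.diff k).const_mul _).const_add _
  · apply one_le_dimH (component_isOpen f₀ _) ⟨_, mem_connectedComponentIn (int_mem_fatou _)⟩
    refine Bornology.IsBounded.subset ?_ subset_closure
    rw [← hclos k]
    exact ((isCompact_closedBall (0 : ℂ) 1).image_of_continuousOn (hcont k)).isBounded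
  · intro M hCM hj
    obtain ⟨h0, h1⟩ := hδM M hCM
    have hM0 : 0 < M := by linarith
    have hM' : Maps (63 * C1 / M ^ 2) (fun i => L (i + k)) (Phi fun i => L (i + k)) :=
      maps_Phi h0 h1 (fun i => hLd (i + k))
        (fun i => hLM M (i + k) hCM (by have := hj i; rwa [add_comm] at this)) (fun i => hL0 (i + k))
    have hPhi : Phi (fun i => L (i + k)) 0 = Phi L k := by rw [Phi_shift, zero_add]
    refine ⟨fun z hz => ?_, ?_⟩
    · have h2 := hM'.near 0 z hz
      rw [hPhi] at h2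
      have e : Ψ k z - (((T^[k] n : ℤ) : ℂ) + τ k * z) = τ k * (Phi L k z - z) := by
        show ((x k : ℤ) : ℂ) + τ k * Phi L k z - (((x k : ℤ) : ℂ) + τ k * z) = _
        ring
      rw [e, norm_mul, hτn]
      have h3 := hρ0 k
      calc rho (x k) * ‖Phi L k z - z‖ ≤ rho (x k) * (2 * (63 * C1 / M ^ 2) * ‖z‖) := by gcongr
        _ = 126 * C1 / M ^ 2 * rho (x k) * ‖z‖ := by ring
        _ ≤ 2520 * C1 / M ^ 2 * rho (x k) * ‖z‖ := by
            gcongr
            norm_num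
    · have h2 := hM'.holder 0
      rw [hPhi] at h2
      have h3 := hρ0 k
      have hα : 0 < 1 - 20 * (63 * C1 / M ^ 2) := by linarith
      have h4 : dimH (Ψ k '' sphere 0 1) ≤ ENNReal.ofReal (1 / (1 - 20 * (63 * C1 / M ^ 2))) := by
        refine dimH_le (K := 6 * rho (x k)) (by positivity) hα fun z w hz hw => ?_
        have e : Ψ k z - Ψ k w = τ k * (Phi L k z - Phi L k w) := by
          show ((x k : ℤ) : ℂ) + τ k * Phi L k z - (((x k : ℤ) : ℂ) + τ k * Phi L k w) = _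
          ring
        rw [e, norm_mul, hτn]
        calc rho (x k) * ‖Phi L k z - Phi L k w‖ ≤
              rho (x k) * (6 * ‖z - w‖ ^ (1 - 20 * (63 * C1 / M ^ 2))) := by
              gcongr
              exact h2 z w hz hw
          _ = _ := by ring
      rw [hfront k] at h4
      refine h4.trans (ENNReal.ofReal_le_ofReal ?_)
      have e1 : 2520 * C1 / M ^ 2 = 40 * (63 * C1 / M ^ 2) := by ring
      rw [e1, div_le_iff₀ hα]
      nlinarith

end Pool.Agent.Helper25.JB
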