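import Mathlib

/-!
# Nonautonomous squaring: the logarithms of the Riemann maps

`L k` holomorphic and small on the disc of radius `2`, `L k 0 = 0`. There are small functions `ψ k` on the closed
unit disc with `2 ψ_k(z) + L_k(z exp ψ_k(z)) = ψ_(k+1)(z²)`.
-/

set_option autoImplicit false

open Filter Topology Metric Set

namespace Pool.Agent.Helper25.JB

theorem lip {δ : ℝ} {L : ℂ → ℂ} (hL : DifferentiableOn ℂ L (ball 0 2))
    (hLb : ∀ v ∈ ball (0 : ℂ) 2, ‖L v‖ ≤ δ) {v w : ℂ} (hv : ‖v‖ ≤ 3 / 2) (hw : ‖w‖ ≤ 3 / 2) :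
    ‖L v - L w‖ ≤ 3 * δ * ‖v - w‖ := by
  have h1 : ∀ x ∈ closedBall (0 : ℂ) (3 / 2), ‖deriv L x‖ ≤ 3 * δ := by
    intro x hx
    rw [mem_closedBall, dist_zero_right] at hx
    have hsub : closedBall x (1 / 3) ⊆ ball (0 : ℂ) 2 := by
      intro y hy
      rw [mem_closedBall, dist_eq_norm] at hy
      rw [mem_ball, dist_zero_right]
      have : ‖y‖ ≤ ‖y - x‖ + ‖x‖ := by
        have := norm_add_le (y - x) x
        simpa using this
      linarith
    have h2 : ‖deriv L x‖ ≤ δ / (1 / 3) := by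
      refine Complex.norm_deriv_le_of_forall_mem_sphere_norm_le (by norm_num) ?_ ?_
      · exact (hL.mono hsub).diffContOnCl_ball subset_rfl
      · intro y hy
        exact hLb y (hsub (sphere_subset_closedBall hy))
    linarith
  have h3 := (convex_closedBall (0 : ℂ) (3 / 2)).norm_image_sub_le_of_norm_deriv_le
    (f := L) (C := 3 * δ) (x := w) (y := v) (fun x hx => ?_) h1 (by simpa using hw) (by simpa using hv)
  · exact h3
  · rw [mem_closedBall, dist_zero_right] at hx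
    refine (hL x ?_).differentiableAt (isOpen_ball.mem_nhds ?_) <;>
    · rw [mem_ball, dist_zero_right]; linarith

theorem exp_sub {a b : ℂ} (ha : ‖a‖ ≤ 1 / 40) (hb : ‖b‖ ≤ 1 / 40) :
    ‖Complex.exp a - Complex.exp b‖ ≤ 3 * ‖a - b‖ := by
  have e : Complex.exp a - Complex.exp b = Complex.exp b * (Complex.exp (a - b) - 1) := by
    rw [mul_sub, ← Complex.exp_add, mul_one]; congr 2; ring
  have h1 : ‖a - b‖ ≤ 1 := by
    have := norm_sub_le a b
    linarith
  have h2 := Complex.norm_exp_sub_one_le h1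
  have h3 : ‖Complex.exp b‖ ≤ 3 / 2 := by
    have h4 := Complex.norm_exp_sub_one_le (x := b) (by linarith)
    have h5 : ‖Complex.exp b‖ ≤ ‖Complex.exp b - 1‖ + ‖(1 : ℂ)‖ := by
      have := norm_add_le (Complex.exp b - 1) 1
      simpa using this
    rw [norm_one] at h5
    linarith
  rw [e, norm_mul]
  calc ‖Complex.exp b‖ * ‖Complex.exp (a - b) - 1‖ ≤ 3 / 2 * (2 * ‖a - b‖) := by gcongr
    _ = 3 * ‖a - b‖ := by ring

theorem exp_near {a : ℂ} (ha : ‖a‖ ≤ 1 / 40) : ‖Complex.exp a‖ ≤ 21 / 20 := by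
  have h4 := Complex.norm_exp_sub_one_le (x := a) (by linarith)
  have h5 : ‖Complex.exp a‖ ≤ ‖Complex.exp a - 1‖ + ‖(1 : ℂ)‖ := by
    have := norm_add_le (Complex.exp a - 1) 1
    simpa using this
  rw [norm_one] at h5
  linarith

theorem two_rpow_le {s : ℝ} (h0 : 0 ≤ s) (h1 : s ≤ 1) : (2 : ℝ) ^ (-s) ≤ 1 - s / 2 := by
  have h := Real.geom_mean_le_arith_mean2_weighted (w₁ := 1 - s) (w₂ := s) (p₁ := 1) (p₂ := 1 / 2)
    (by linarith) h0 (by norm_num) (by norm_num) (by ring)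
  rw [Real.one_rpow, one_mul] at h
  have e : (2 : ℝ) ^ (-s) = (1 / 2 : ℝ) ^ s := by
    rw [Real.rpow_neg (by norm_num), one_div, Real.inv_rpow (by norm_num)]
  rw [e]
  linarith

/-- the iteration -/
noncomputable def it (L : ℕ → ℂ → ℂ) : ℕ → ℕ → ℂ → ℂ
  | 0 => fun _ _ => 0
  | j + 1 => fun k z => (it L j (k + 1) (z ^ 2) - L k (z * Complex.exp (it L j k z))) / 2

section
variable {δ : ℝ} (hδ0 : 0 ≤ δ) (hδ : δ ≤ 1 / 40) {L : ℕ → ℂ → ℂ}
  (hL : ∀ k, DifferentiableOn ℂ (L k) (ball 0 2)) (hLb : ∀ k, ∀ v ∈ ball (0 : ℂ) 2, ‖L k v‖ ≤ δ)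
  (hL0 : ∀ k, L k 0 = 0)
include hδ0 hδ

omit hδ0 in
theorem arg_bd {z a : ℂ} (hz : ‖z‖ ≤ 1) (ha : ‖a‖ ≤ δ) : ‖z * Complex.exp a‖ ≤ 21 / 20 := by
  rw [norm_mul]
  have := exp_near (a := a) (by linarith)
  calc ‖z‖ * ‖Complex.exp a‖ ≤ 1 * (21 / 20) := by gcongr
    _ = 21 / 20 := by norm_num

include hLb in
theorem it_bd (j : ℕ) : ∀ k, ∀ z : ℂ, ‖z‖ ≤ 1 → ‖it L j k z‖ ≤ δ := by
  induction j with
  | zero => intro k z _; simpa [it] using hδ0
  | succ j ih =>
    intro k z hz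
    have h1 := ih (k + 1) (z ^ 2) (by rw [norm_pow]; exact pow_le_one₀ (norm_nonneg _) hz)
    have h2 := hLb k (z * Complex.exp (it L j k z)) (by
      rw [mem_ball, dist_zero_right]
      have := arg_bd hδ hz (ih k z hz)
      linarith)
    have h3 : ‖it L j (k + 1) (z ^ 2) - L k (z * Complex.exp (it L j k z))‖ ≤ 2 * δ :=
      (norm_sub_le _ _).trans (by linarith)
    show ‖(it L j (k + 1) (z ^ 2) - L k (z * Complex.exp (it L j k z))) / 2‖ ≤ δ
    rw [norm_div, Complex.norm_ofNat]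
    linarith

include hL hLb in
theorem it_diff (j : ℕ) : ∀ k, ∀ z : ℂ, ‖z‖ ≤ 1 → ‖it L (j + 1) k z - it L j k z‖ ≤ δ * (3 / 4) ^ j := by
  induction j with
  | zero =>
    intro k z hz
    have := it_bd hδ0 hδ hLb 1 k z hz
    simpa [it] using this
  | succ j ih =>
    intro k z hz
    have hz2 : ‖z ^ 2‖ ≤ 1 := by rw [norm_pow]; exact pow_le_one₀ (norm_nonneg _) hz
    have h1 := ih (k + 1) (z ^ 2) hz2
    have h2 := ih k z hz
    have b1 := it_bd hδ0 hδ hLb (j + 1) k z hz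
    have b2 := it_bd hδ0 hδ hLb j k z hz
    have h3 := lip (hL k) (hLb k) (v := z * Complex.exp (it L j k z))
      (w := z * Complex.exp (it L (j + 1) k z))
      (by have := arg_bd hδ hz b2; linarith) (by have := arg_bd hδ hz b1; linarith)
    have h4 : ‖z * Complex.exp (it L j k z) - z * Complex.exp (it L (j + 1) k z)‖ ≤
        3 * ‖it L (j + 1) k z - it L j k z‖ := by
      rw [← mul_sub, norm_mul]
      have h5 := exp_sub (a := it L j k z) (b := it L (j + 1) k z) (by linarith) (by linarith)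
      rw [norm_sub_rev (it L (j + 1) k z)]
      calc ‖z‖ * ‖Complex.exp (it L j k z) - Complex.exp (it L (j + 1) k z)‖
          ≤ 1 * (3 * ‖it L j k z - it L (j + 1) k z‖) := by gcongr
        _ = _ := by ring
    have e : it L (j + 1 + 1) k z - it L (j + 1) k z =
        ((it L (j + 1) (k + 1) (z ^ 2) - it L j (k + 1) (z ^ 2)) +
          (L k (z * Complex.exp (it L j k z)) - L k (z * Complex.exp (it L (j + 1) k z)))) / 2 := by
      show (it L (j + 1) (k + 1) (z ^ 2) - L k (z * Complex.exp (it L (j + 1) k z))) / 2 -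
        (it L j (k + 1) (z ^ 2) - L k (z * Complex.exp (it L j k z))) / 2 = _
      ring
    rw [e, norm_div, Complex.norm_ofNat, div_le_iff₀ (by norm_num)]
    refine (norm_add_le _ _).trans ?_
    have hp : 0 ≤ δ * (3 / 4 : ℝ) ^ j := by positivity
    calc ‖it L (j + 1) (k + 1) (z ^ 2) - it L j (k + 1) (z ^ 2)‖ +
          ‖L k (z * Complex.exp (it L j k z)) - L k (z * Complex.exp (it L (j + 1) k z))‖
        ≤ δ * (3 / 4) ^ j + 3 * δ * (3 * (δ * (3 / 4) ^ j)) := by
          gcongr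
          refine h3.trans ?_
          gcongr
          refine h4.trans ?_
          gcongr
      _ ≤ δ * (3 / 4) ^ j + 3 * (1 / 40) * (3 * (δ * (3 / 4) ^ j)) := by gcongr
      _ ≤ δ * (3 / 4) ^ (j + 1) * 2 := by
          rw [pow_succ]
          linarith

include hL hLb in
theorem it_holder (j : ℕ) : ∀ k, ∀ z w : ℂ, ‖z‖ ≤ 1 → ‖w‖ ≤ 1 →
    ‖it L j k z - it L j k w‖ ≤ ‖z - w‖ ^ (1 - 20 * δ) := by
  induction j with
  | zero =>
    intro k z w _ _
    simp only [it, sub_zero, norm_zero]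
    positivity
  | succ j ih =>
    intro k z w hz hw
    set α := 1 - 20 * δ with hα
    have hα0 : 0 ≤ α := by linarith
    have hα1 : α ≤ 1 := by linarith
    have hz2 : ‖z ^ 2‖ ≤ 1 := by rw [norm_pow]; exact pow_le_one₀ (norm_nonneg _) hz
    have hw2 : ‖w ^ 2‖ ≤ 1 := by rw [norm_pow]; exact pow_le_one₀ (norm_nonneg _) hw
    have h0 : 0 ≤ ‖z - w‖ := norm_nonneg _
    have h1 := ih (k + 1) (z ^ 2) (w ^ 2) hz2 hw2
    have h2 := ih k z w hz hw
    have b1 := it_bd hδ0 hδ hLb j k z hz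
    have b2 := it_bd hδ0 hδ hLb j k w hw
    have hzw : ‖z - w‖ ≤ 2 := (norm_sub_le _ _).trans (by linarith)
    have h3 : ‖z ^ 2 - w ^ 2‖ ^ α ≤ 2 ^ α * ‖z - w‖ ^ α := by
      rw [← Real.mul_rpow (by norm_num) h0]
      apply Real.rpow_le_rpow (norm_nonneg _) _ hα0
      have e : z ^ 2 - w ^ 2 = (z + w) * (z - w) := by ring
      rw [e, norm_mul]
      gcongr
      exact (norm_add_le _ _).trans (by linarith)
    have h4 : ‖z - w‖ ≤ 2 * ‖z - w‖ ^ α := by
      rcases eq_or_lt_of_le h0 with h | h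
      · rw [← h]; positivity
      · have e : ‖z - w‖ = ‖z - w‖ ^ (1 - α) * ‖z - w‖ ^ α := by
          rw [← Real.rpow_add h]; simp
        have h5 : ‖z - w‖ ^ (1 - α) ≤ 2 := by
          calc ‖z - w‖ ^ (1 - α) ≤ 2 ^ (1 - α) := Real.rpow_le_rpow h0 hzw (by linarith)
            _ ≤ 2 ^ (1 : ℝ) := Real.rpow_le_rpow_of_exponent_le (by norm_num) (by linarith)
            _ = 2 := by norm_num
        calc ‖z - w‖ = ‖z - w‖ ^ (1 - α) * ‖z - w‖ ^ α := e
          _ ≤ 2 * ‖z - w‖ ^ α := by gcongr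
    have h5 : ‖z * Complex.exp (it L j k z) - w * Complex.exp (it L j k w)‖ ≤ 6 * ‖z - w‖ ^ α := by
      have e : z * Complex.exp (it L j k z) - w * Complex.exp (it L j k w) =
          (z - w) * Complex.exp (it L j k z) +
          w * (Complex.exp (it L j k z) - Complex.exp (it L j k w)) := by ring
      rw [e]
      refine (norm_add_le _ _).trans ?_
      rw [norm_mul, norm_mul]
      have h6 := exp_sub (a := it L j k z) (b := it L j k w) (by linarith) (by linarith)
      have h7 := exp_near (a := it L j k z) (by linarith)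
      have h8 : 0 ≤ ‖z - w‖ ^ α := by positivity
      calc ‖z - w‖ * ‖Complex.exp (it L j k z)‖ +
            ‖w‖ * ‖Complex.exp (it L j k z) - Complex.exp (it L j k w)‖
          ≤ ‖z - w‖ * (21 / 20) + 1 * (3 * ‖z - w‖ ^ α) := by
            gcongr
            refine h6.trans ?_
            gcongr
        _ ≤ 6 * ‖z - w‖ ^ α := by linarith
    have h6 := lip (hL k) (hLb k) (v := w * Complex.exp (it L j k w))
      (w := z * Complex.exp (it L j k z))
      (by have := arg_bd hδ hw b2; linarith) (by have := arg_bd hδ hz b1; linarith)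
    rw [norm_sub_rev (w * Complex.exp (it L j k w))] at h6
    have e : it L (j + 1) k z - it L (j + 1) k w =
        ((it L j (k + 1) (z ^ 2) - it L j (k + 1) (w ^ 2)) +
          (L k (w * Complex.exp (it L j k w)) - L k (z * Complex.exp (it L j k z)))) / 2 := by
      show (it L j (k + 1) (z ^ 2) - L k (z * Complex.exp (it L j k z))) / 2 -
        (it L j (k + 1) (w ^ 2) - L k (w * Complex.exp (it L j k w))) / 2 = _
      ring
    rw [e, norm_div, Complex.norm_ofNat, div_le_iff₀ (by norm_num)]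
    refine (norm_add_le _ _).trans ?_
    have h8 : 0 ≤ ‖z - w‖ ^ α := by positivity
    have h9 : (2 : ℝ) ^ α ≤ 2 * (1 - 10 * δ) := by
      have h10 := two_rpow_le (s := 20 * δ) (by linarith) (by linarith)
      have e2 : (2 : ℝ) ^ α = 2 * 2 ^ (-(20 * δ)) := by
        rw [hα, sub_eq_add_neg, Real.rpow_add (by norm_num), Real.rpow_one]
      rw [e2]
      linarith
    calc ‖it L j (k + 1) (z ^ 2) - it L j (k + 1) (w ^ 2)‖ +
          ‖L k (w * Complex.exp (it L j k w)) - L k (z * Complex.exp (it L j k z))‖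
        ≤ 2 ^ α * ‖z - w‖ ^ α + 3 * δ * (6 * ‖z - w‖ ^ α) := by
          gcongr
          · exact h1.trans h3
          · refine h6.trans ?_
            gcongr
      _ ≤ 2 * (1 - 10 * δ) * ‖z - w‖ ^ α + 3 * δ * (6 * ‖z - w‖ ^ α) := by gcongr
      _ ≤ ‖z - w‖ ^ α * 2 := by nlinarith [mul_nonneg hδ0 h8]

include hL in
theorem it_diffOn (hLb : ∀ k, ∀ v ∈ ball (0 : ℂ) 2, ‖L k v‖ ≤ δ) (j : ℕ) :
    ∀ k, DifferentiableOn ℂ (it L j k) (ball 0 1) := by
  induction j with
  | zero => intro k; exact differentiableOn_const 0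
  | succ j ih =>
    intro k
    have hmap : ∀ z ∈ ball (0 : ℂ) 1, z ^ 2 ∈ ball (0 : ℂ) 1 := by
      intro z hz
      rw [mem_ball, dist_zero_right] at hz ⊢
      rw [norm_pow]
      exact pow_lt_one₀ (norm_nonneg _) hz (by norm_num)
    have hmap2 : ∀ z ∈ ball (0 : ℂ) 1, z * Complex.exp (it L j k z) ∈ ball (0 : ℂ) 2 := by
      intro z hz
      rw [mem_ball, dist_zero_right] at hz ⊢
      have := arg_bd hδ hz.le (it_bd hδ0 hδ hLb j k z hz.le)
      linarith
    have h1 : DifferentiableOn ℂ (fun z => it L j (k + 1) (z ^ 2)) (ball 0 1) :=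
      (ih (k + 1)).comp (differentiable_pow 2).differentiableOn hmap
    have h2 : DifferentiableOn ℂ (fun z => L k (z * Complex.exp (it L j k z))) (ball 0 1) :=
      (hL k).comp (differentiableOn_id.mul (ih k).cexp) hmap2
    exact (h1.sub h2).div_const 2

end

/-- the limit of the iteration -/
noncomputable def psi (L : ℕ → ℂ → ℂ) (k : ℕ) (z : ℂ) : ℂ := limUnder atTop fun j => it L j k z

theorem it_shift (L : ℕ → ℂ → ℂ) (s j : ℕ) : ∀ (k : ℕ) (z : ℂ),
    it (fun i => L (i + s)) j k z = it L j (k + s) z := by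
  induction j with
  | zero => intro k z; rfl
  | succ j ih =>
    intro k z
    show (it (fun i => L (i + s)) j (k + 1) (z ^ 2) -
      L (k + s) (z * Complex.exp (it (fun i => L (i + s)) j k z))) / 2 =
      (it L j (k + s + 1) (z ^ 2) - L (k + s) (z * Complex.exp (it L j (k + s) z))) / 2
    rw [ih, ih, show k + 1 + s = k + s + 1 by omega]

theorem psi_shift (L : ℕ → ℂ → ℂ) (s k : ℕ) (z : ℂ) :
    psi (fun i => L (i + s)) k z = psi L (k + s) z := by
  unfold psi
  simp only [it_shift]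

theorem psi_spec {δ : ℝ} (hδ0 : 0 ≤ δ) (hδ : δ ≤ 1 / 40) {L : ℕ → ℂ → ℂ}
    (hL : ∀ k, DifferentiableOn ℂ (L k) (ball 0 2)) (hLb : ∀ k, ∀ v ∈ ball (0 : ℂ) 2, ‖L k v‖ ≤ δ)
    (hL0 : ∀ k, L k 0 = 0) (k : ℕ) : DifferentiableOn ℂ (psi L k) (ball 0 1) ∧ psi L k 0 = 0 ∧
      (∀ z : ℂ, ‖z‖ ≤ 1 → ‖psi L k z‖ ≤ δ) ∧
      (∀ z : ℂ, ‖z‖ ≤ 1 → 2 * psi L k z + L k (z * Complex.exp (psi L k z)) = psi L (k + 1) (z ^ 2)) ∧
      (∀ z w : ℂ, ‖z‖ ≤ 1 → ‖w‖ ≤ 1 → ‖psi L k z - psi L k w‖ ≤ ‖z - w‖ ^ (1 - 20 * δ)) := by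
  have hd := it_diff hδ0 hδ hL hLb
  have hb := it_bd hδ0 hδ hLb
  have hdist : ∀ k, ∀ z : ℂ, ‖z‖ ≤ 1 → ∀ j, dist (it L j k z) (it L (j + 1) k z) ≤ δ * (3 / 4) ^ j := by
    intro k z hz j
    rw [dist_comm, dist_eq_norm]
    exact hd j k z hz
  have hψ : ∀ k, ∀ z : ℂ, ‖z‖ ≤ 1 → Tendsto (fun j => it L j k z) atTop (𝓝 (psi L k z)) := by
    intro k z hz
    have hc : CauchySeq fun j => it L j k z :=
      cauchySeq_of_le_geometric (3 / 4) δ (by norm_num) (hdist k z hz)
    exact hc.tendsto_limUnder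
  have hu : ∀ k, ∀ z : ℂ, ‖z‖ ≤ 1 → ∀ j,
      dist (it L j k z) (psi L k z) ≤ δ * (3 / 4) ^ j / (1 - 3 / 4) := by
    intro k z hz j
    exact dist_le_of_le_geometric_of_tendsto (3 / 4) δ (by norm_num) (hdist k z hz) (hψ k z hz) j
  have hunif : ∀ k, TendstoUniformlyOn (fun j => it L j k) (psi L k) atTop (closedBall 0 1) := by
    intro k
    rw [Metric.tendstoUniformlyOn_iff]
    intro ε hε
    have h1 : Tendsto (fun j : ℕ => δ * (3 / 4 : ℝ) ^ j / (1 - 3 / 4)) atTop (𝓝 0) := by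
      have := ((tendsto_pow_atTop_nhds_zero_of_lt_one (r := (3 / 4 : ℝ)) (by norm_num)
        (by norm_num)).const_mul δ).div_const (1 - 3 / 4)
      simpa using this
    filter_upwards [h1.eventually (gt_mem_nhds hε)] with j hj z hz
    rw [dist_comm]
    exact (hu k z (by simpa using hz) j).trans_lt hj
  refine ⟨?_, ?_, ?_, ?_, ?_⟩
  · refine TendstoLocallyUniformlyOn.differentiableOn (F := fun j => it L j k) (φ := atTop) ?_ ?_ isOpen_ball
    · exact ((hunif k).mono ball_subset_closedBall).tendstoLocallyUniformlyOn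
    · exact Eventually.of_forall fun j => it_diffOn hδ0 hδ hL hLb j k
  · have h0 : ∀ j k, it L j k 0 = 0 := by
      intro j
      induction j with
      | zero => intro k; rfl
      | succ j ih =>
        intro k
        show (it L j (k + 1) (0 ^ 2) - L k (0 * Complex.exp (it L j k 0))) / 2 = 0
        rw [zero_pow (by norm_num), ih, zero_mul, hL0]
        simp
    have h1 := hψ k 0 (by simp)
    simp only [h0] at h1
    exact (tendsto_nhds_unique h1 tendsto_const_nhds)
  · intro z hz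
    exact le_of_tendsto (hψ k z hz).norm (Eventually.of_forall fun j => hb j k z hz)
  · intro z hz
    have hz2 : ‖z ^ 2‖ ≤ 1 := by rw [norm_pow]; exact pow_le_one₀ (norm_nonneg _) hz
    have hcont : ContinuousAt (L k) (z * Complex.exp (psi L k z)) := by
      refine ((hL k) _ ?_).continuousWithinAt.continuousAt (isOpen_ball.mem_nhds ?_) <;>
      · rw [mem_ball, dist_zero_right]
        have h1 : ‖psi L k z‖ ≤ δ :=
          le_of_tendsto (hψ k z hz).norm (Eventually.of_forall fun j => hb j k z hz)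
        have := arg_bd hδ hz h1
        linarith
    have h1 : Tendsto (fun j => (it L j (k + 1) (z ^ 2) - L k (z * Complex.exp (it L j k z))) / 2) atTop
        (𝓝 ((psi L (k + 1) (z ^ 2) - L k (z * Complex.exp (psi L k z))) / 2)) := by
      refine Tendsto.div_const ((hψ (k + 1) (z ^ 2) hz2).sub ?_) 2
      exact hcont.tendsto.comp (((hψ k z hz).cexp).const_mul z)
    have h2 : Tendsto (fun j => it L (j + 1) k z) atTop (𝓝 (psi L k z)) :=
      (hψ k z hz).comp (tendsto_add_atTop_nat 1)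
    have h3 := tendsto_nhds_unique h2 h1
    linear_combination 2 * h3
  · intro z w hz hw
    exact le_of_tendsto ((hψ k z hz).sub (hψ k w hw)).norm
      (Eventually.of_forall fun j => it_holder hδ0 hδ hL hLb j k z w hz hw)

end Pool.Agent.Helper25.JB
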