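import Pool.Agent.Helper25.JB.Psi

/-!
# Nonautonomous squaring: the Riemann maps and their boundary values
-/

set_option autoImplicit false

open Filter Topology Metric Set

namespace Pool.Agent.Helper25.JB

/-- the facts on the maps `Ψ k` -/
structure Maps (δ : ℝ) (L : ℕ → ℂ → ℂ) (Ψ : ℕ → ℂ → ℂ) : Prop where
  diff : ∀ k, DifferentiableOn ℂ (Ψ k) (ball 0 1)
  der : ∀ k, HasDerivAt (Ψ k) 1 0
  near : ∀ k, ∀ z : ℂ, ‖z‖ ≤ 1 → ‖Ψ k z - z‖ ≤ 2 * δ * ‖z‖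
  func : ∀ k, ∀ z : ℂ, ‖z‖ ≤ 1 → Ψ k z ^ 2 * Complex.exp (L k (Ψ k z)) = Ψ (k + 1) (z ^ 2)
  holder : ∀ k, ∀ z w : ℂ, ‖z‖ ≤ 1 → ‖w‖ ≤ 1 → ‖Ψ k z - Ψ k w‖ ≤ 6 * ‖z - w‖ ^ (1 - 20 * δ)

/-- the rescaled Riemann maps -/
noncomputable def Phi (L : ℕ → ℂ → ℂ) (k : ℕ) (z : ℂ) : ℂ := z * Complex.exp (psi L k z)

theorem Phi_shift (L : ℕ → ℂ → ℂ) (s k : ℕ) : Phi (fun i => L (i + s)) k = Phi L (k + s) := by
  funext z
  unfold Phi
  rw [psi_shift]

theorem maps_Phi {δ : ℝ} (hδ0 : 0 ≤ δ) (hδ : δ ≤ 1 / 40) {L : ℕ → ℂ → ℂ}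
    (hL : ∀ k, DifferentiableOn ℂ (L k) (ball 0 2)) (hLb : ∀ k, ∀ v ∈ ball (0 : ℂ) 2, ‖L k v‖ ≤ δ)
    (hL0 : ∀ k, L k 0 = 0) : Maps δ L (Phi L) := by
  obtain ⟨ψ, hψe⟩ : ∃ ψ, ψ = psi L := ⟨_, rfl⟩
  have hψ := psi_spec hδ0 hδ hL hLb hL0
  have hPhi : Phi L = fun k z => z * Complex.exp (ψ k z) := by rw [hψe]; rfl
  rw [← hψe] at hψ
  rw [hPhi]
  refine ⟨?_, ?_, ?_, ?_, ?_⟩
  · intro k
    exact differentiableOn_id.mul (hψ k).1.cexp
  · intro k
    have h1 : DifferentiableAt ℂ (ψ k) 0 :=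
      ((hψ k).1 0 (by simp)).differentiableAt (isOpen_ball.mem_nhds (by simp))
    have h2 := (hasDerivAt_id (0 : ℂ)).mul h1.hasDerivAt.cexp
    refine h2.congr_deriv ?_
    simp [(hψ k).2.1]
  · intro k z hz
    have e : z * Complex.exp (ψ k z) - z = z * (Complex.exp (ψ k z) - 1) := by ring
    rw [e, norm_mul]
    have h1 := (hψ k).2.2.1 z hz
    have h2 := Complex.norm_exp_sub_one_le (x := ψ k z) (by linarith)
    calc ‖z‖ * ‖Complex.exp (ψ k z) - 1‖ ≤ ‖z‖ * (2 * δ) := by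
          gcongr
          exact h2.trans (by linarith)
      _ = 2 * δ * ‖z‖ := by ring
  · intro k z hz
    have h1 := (hψ k).2.2.2.1 z hz
    show (z * Complex.exp (ψ k z)) ^ 2 * Complex.exp (L k (z * Complex.exp (ψ k z))) =
      z ^ 2 * Complex.exp (ψ (k + 1) (z ^ 2))
    rw [← h1, Complex.exp_add, two_mul, Complex.exp_add]
    ring
  · intro k z w hz hw
    set α := 1 - 20 * δ with hα
    have hα0 : 0 ≤ α := by linarith
    have h0 : 0 ≤ ‖z - w‖ := norm_nonneg _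
    have b1 := (hψ k).2.2.1 z hz
    have b2 := (hψ k).2.2.1 w hw
    have h2 := (hψ k).2.2.2.2 z w hz hw
    have hzw : ‖z - w‖ ≤ 2 := (norm_sub_le _ _).trans (by linarith)
    have h4 : ‖z - w‖ ≤ 2 * ‖z - w‖ ^ α := by
      rcases eq_or_lt_of_le h0 with h | h
      · rw [← h]; positivity
      · have e : ‖z - w‖ = ‖z - w‖ ^ (1 - α) * ‖z - w‖ ^ α := by
          rw [← Real.rpow_add h]; simp
        have h5 : ‖z - w‖ ^ (1 - α) ≤ 2 := by
          calc ‖z - w‖ ^ (1 - α) ≤ 2 ^ (1 - α) := Real.rpow_le_rpow h0 hzw (by linarith)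
            _ ≤ 2 ^ (1 : ℝ) := Real.rpow_le_rpow_of_exponent_le (by norm_num) (by linarith)
            _ = 2 := by norm_num
        calc ‖z - w‖ = ‖z - w‖ ^ (1 - α) * ‖z - w‖ ^ α := e
          _ ≤ 2 * ‖z - w‖ ^ α := by gcongr
    have e : z * Complex.exp (ψ k z) - w * Complex.exp (ψ k w) =
        (z - w) * Complex.exp (ψ k z) + w * (Complex.exp (ψ k z) - Complex.exp (ψ k w)) := by ring
    show ‖z * Complex.exp (ψ k z) - w * Complex.exp (ψ k w)‖ ≤ 6 * ‖z - w‖ ^ α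
    rw [e]
    refine (norm_add_le _ _).trans ?_
    rw [norm_mul, norm_mul]
    have h6 := exp_sub (a := ψ k z) (b := ψ k w) (by linarith) (by linarith)
    have h7 := exp_near (a := ψ k z) (by linarith)
    have h8 : 0 ≤ ‖z - w‖ ^ α := by positivity
    calc ‖z - w‖ * ‖Complex.exp (ψ k z)‖ + ‖w‖ * ‖Complex.exp (ψ k z) - Complex.exp (ψ k w)‖
        ≤ ‖z - w‖ * (21 / 20) + 1 * (3 * ‖z - w‖ ^ α) := by
          gcongr
          refine h6.trans ?_
          gcongr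
      _ ≤ 6 * ‖z - w‖ ^ α := by linarith

section
variable {δ : ℝ} {L Ψ : ℕ → ℂ → ℂ} (hM : Maps δ L Ψ) (hδ0 : 0 ≤ δ) (hδ : δ ≤ 1 / 40)
include hM hδ

theorem upper (k : ℕ) {z : ℂ} (hz : ‖z‖ ≤ 1) : ‖Ψ k z‖ ≤ 21 / 20 * ‖z‖ := by
  have h1 := hM.near k z hz
  have h2 : ‖Ψ k z‖ ≤ ‖Ψ k z - z‖ + ‖z‖ := by
    have := norm_add_le (Ψ k z - z) z
    simpa using this
  have h3 : 2 * δ * ‖z‖ ≤ 2 * (1 / 40) * ‖z‖ := by gcongr
  linarith

theorem lower (k : ℕ) {z : ℂ} (hz : ‖z‖ ≤ 1) : 19 / 20 * ‖z‖ ≤ ‖Ψ k z‖ := by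
  have h1 := hM.near k z hz
  have h2 : ‖z‖ ≤ ‖Ψ k z‖ + ‖Ψ k z - z‖ := by
    have := norm_sub_le (Ψ k z) (Ψ k z - z)
    simpa using this
  have h3 : 2 * δ * ‖z‖ ≤ 2 * (1 / 40) * ‖z‖ := by gcongr
  linarith

omit hδ in
theorem zero (k : ℕ) : Ψ k 0 = 0 := by
  have h := hM.near k 0 (by simp)
  simpa using h

omit hM hδ in
theorem pow_le {z : ℂ} (hz : ‖z‖ ≤ 1) (j : ℕ) : ‖z ^ (2 ^ j)‖ ≤ 1 := by
  rw [norm_pow]; exact pow_le_one₀ (norm_nonneg _) hz

omit hM hδ in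
theorem pow_succ' (z : ℂ) (j : ℕ) : z ^ (2 ^ (j + 1)) = (z ^ (2 ^ j)) ^ 2 := by
  rw [← pow_mul, pow_succ]

include hδ0 in
theorem iter_eq {k : ℕ} {z w : ℂ} (hz : ‖z‖ ≤ 1) (hw : ‖w‖ ≤ 1) (h : Ψ k z = Ψ k w) (j : ℕ) :
    Ψ (k + j) (z ^ (2 ^ j)) = Ψ (k + j) (w ^ (2 ^ j)) := by
  induction j with
  | zero => simpa using h
  | succ j ih =>
    have h1 := hM.func (k + j) (z ^ (2 ^ j)) (pow_le hz j)
    have h2 := hM.func (k + j) (w ^ (2 ^ j)) (pow_le hw j)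
    rw [pow_succ', pow_succ', ← add_assoc, ← h1, ← h2, ih]

/-- injective near the centre -/
theorem inj_half (k : ℕ) {z w : ℂ} (hz : ‖z‖ ≤ 1 / 2) (hw : ‖w‖ ≤ 1 / 2) (h : Ψ k z = Ψ k w) : z = w := by
  have hd : DifferentiableOn ℂ (fun z => Ψ k z - z) (ball 0 1) := (hM.diff k).sub differentiableOn_id
  have hb : ∀ x ∈ closedBall (0 : ℂ) (1 / 2), ‖deriv (fun z => Ψ k z - z) x‖ ≤ 1 / 5 := by
    intro x hx
    rw [mem_closedBall, dist_zero_right] at hx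
    have hsub : closedBall x (1 / 3) ⊆ ball (0 : ℂ) 1 := by
      intro y hy
      rw [mem_closedBall, dist_eq_norm] at hy
      rw [mem_ball, dist_zero_right]
      have : ‖y‖ ≤ ‖y - x‖ + ‖x‖ := by
        have := norm_add_le (y - x) x
        simpa using this
      linarith
    have h2 : ‖deriv (fun z => Ψ k z - z) x‖ ≤ (1 / 20) / (1 / 3) := by
      refine Complex.norm_deriv_le_of_forall_mem_sphere_norm_le (by norm_num) ?_ ?_
      · exact (hd.mono hsub).diffContOnCl_ball subset_rfl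
      · intro y hy
        have hy1 : ‖y‖ ≤ 1 := by
          have := hsub (sphere_subset_closedBall hy)
          rw [mem_ball, dist_zero_right] at this
          exact this.le
        refine (hM.near k y hy1).trans ?_
        calc 2 * δ * ‖y‖ ≤ 2 * (1 / 40) * 1 := by
              have := norm_nonneg y
              nlinarith
          _ = 1 / 20 := by norm_num
    linarith
  have h3 := (convex_closedBall (0 : ℂ) (1 / 2)).norm_image_sub_le_of_norm_deriv_le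
    (f := fun z => Ψ k z - z) (C := 1 / 5) (x := w) (y := z) (fun x hx => ?_) hb (by simpa using hw)
    (by simpa using hz)
  · simp only [h] at h3
    have e : Ψ k w - z - (Ψ k w - w) = -(z - w) := by ring
    rw [e, norm_neg] at h3
    have h4 : ‖z - w‖ = 0 := by linarith [norm_nonneg (z - w)]
    exact sub_eq_zero.1 (norm_eq_zero.1 h4)
  · rw [mem_closedBall, dist_zero_right] at hx
    refine (hd x ?_).differentiableAt (isOpen_ball.mem_nhds ?_) <;>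
    · rw [mem_ball, dist_zero_right]; linarith

omit hM hδ in
theorem small_pow {z : ℂ} (hz : ‖z‖ < 1) : ∀ᶠ j : ℕ in atTop, ‖z ^ (2 ^ j)‖ ≤ 1 / 2 := by
  have h1 : Tendsto (fun j : ℕ => ‖z‖ ^ (2 ^ j)) atTop (𝓝 0) :=
    (tendsto_pow_atTop_nhds_zero_of_lt_one (norm_nonneg _) hz).comp
      (tendsto_pow_atTop_atTop_of_one_lt (by norm_num : 1 < 2))
  filter_upwards [h1.eventually (gt_mem_nhds (by norm_num : (0 : ℝ) < 1 / 2))] with j hj
  rw [norm_pow]; exact hj.le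

omit hM hδ in
/-- the doubling map is expanding -/
theorem expand {a b : ℂ} (ha : ‖a‖ = 1) (hb : ‖b‖ = 1) (h : ‖a - b‖ < 1) :
    3 / 2 * ‖a - b‖ ≤ ‖a ^ 2 - b ^ 2‖ := by
  have h1 := parallelogram_law_with_norm ℝ a b
  rw [ha, hb] at h1
  have h2 : 3 / 2 ≤ ‖a + b‖ := by
    by_contra hcon
    push Not at hcon
    nlinarith [norm_nonneg (a + b), norm_nonneg (a - b)]
  have e : a ^ 2 - b ^ 2 = (a + b) * (a - b) := by ring
  rw [e, norm_mul]
  gcongr

include hδ0 in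
/-- eventually the powers are equal -/
theorem merge {k : ℕ} {z w : ℂ} (hz : ‖z‖ ≤ 1) (hw : ‖w‖ ≤ 1) (h : Ψ k z = Ψ k w) :
    ∃ j : ℕ, z ^ (2 ^ j) = w ^ (2 ^ j) := by
  by_contra hcon
  push Not at hcon
  have hit := iter_eq hM hδ0 hδ hz hw h
  rcases lt_or_eq_of_le hz with hz1 | hz1 <;> rcases lt_or_eq_of_le hw with hw1 | hw1
  · obtain ⟨j, h1, h2⟩ := ((small_pow hz1).and (small_pow hw1)).exists
    exact hcon j (inj_half hM hδ _ h1 h2 (hit j))
  · obtain ⟨j, h1⟩ := (small_pow hz1).exists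
    have h2 := upper hM hδ (k + j) (z := z ^ (2 ^ j)) (by linarith)
    have h3 := lower hM hδ (k + j) (z := w ^ (2 ^ j)) (pow_le hw j)
    rw [norm_pow w, hw1, one_pow, ← hit j] at h3
    linarith
  · obtain ⟨j, h1⟩ := (small_pow hw1).exists
    have h2 := upper hM hδ (k + j) (z := w ^ (2 ^ j)) (by linarith)
    have h3 := lower hM hδ (k + j) (z := z ^ (2 ^ j)) (pow_le hz j)
    rw [norm_pow z, hz1, one_pow, hit j] at h3
    linarith
  · have hn : ∀ j, ‖z ^ (2 ^ j)‖ = 1 ∧ ‖w ^ (2 ^ j)‖ = 1 := fun j => by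
      rw [norm_pow, norm_pow, hz1, hw1]; simp
    have hlt : ∀ j, ‖z ^ (2 ^ j) - w ^ (2 ^ j)‖ < 1 := by
      intro j
      have h1 := hM.near (k + j) (z ^ (2 ^ j)) (pow_le hz j)
      have h2 := hM.near (k + j) (w ^ (2 ^ j)) (pow_le hw j)
      rw [(hn j).1] at h1
      rw [(hn j).2] at h2
      have h3 : ‖z ^ (2 ^ j) - w ^ (2 ^ j)‖ ≤ ‖Ψ (k + j) (w ^ (2 ^ j)) - w ^ (2 ^ j)‖ +
          ‖Ψ (k + j) (z ^ (2 ^ j)) - z ^ (2 ^ j)‖ := by
        have e : z ^ (2 ^ j) - w ^ (2 ^ j) = (Ψ (k + j) (w ^ (2 ^ j)) - w ^ (2 ^ j)) -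
            (Ψ (k + j) (z ^ (2 ^ j)) - z ^ (2 ^ j)) := by rw [hit j]; ring
        calc ‖z ^ (2 ^ j) - w ^ (2 ^ j)‖ = _ := by rw [e]
          _ ≤ _ := norm_sub_le _ _
      linarith
    have hgrow : ∀ j : ℕ, (3 / 2 : ℝ) ^ j * ‖z - w‖ ≤ ‖z ^ (2 ^ j) - w ^ (2 ^ j)‖ := by
      intro j
      induction j with
      | zero => simp
      | succ j ih =>
        have h1 := expand (hn j).1 (hn j).2 (hlt j)
        rw [pow_succ', pow_succ', pow_succ]
        calc (3 / 2 : ℝ) ^ j * (3 / 2) * ‖z - w‖ = 3 / 2 * ((3 / 2) ^ j * ‖z - w‖) := by ring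
          _ ≤ 3 / 2 * ‖z ^ (2 ^ j) - w ^ (2 ^ j)‖ := by gcongr
          _ ≤ _ := h1
    have hpos : 0 < ‖z - w‖ := by
      rw [norm_pos_iff, sub_ne_zero]
      have := hcon 0
      simpa using this
    obtain ⟨j, hj⟩ := pow_unbounded_of_one_lt (1 / ‖z - w‖) (by norm_num : (1 : ℝ) < 3 / 2)
    rw [div_lt_iff₀ hpos] at hj
    linarith [hgrow j, hlt j]

include hδ0 in
theorem injOn (k : ℕ) : InjOn (Ψ k) (closedBall 0 1) := by
  intro z hz w hw h
  rw [mem_closedBall, dist_zero_right] at hz hw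
  have hex := merge hM hδ0 hδ hz hw h
  classical
  have hmin : ∀ m, m < Nat.find hex → ¬ z ^ (2 ^ m) = w ^ (2 ^ m) := fun m hm => Nat.find_min hex hm
  have hspec := Nat.find_spec hex
  rcases hj : Nat.find hex with _ | i
  · rw [hj] at hspec; simpa using hspec
  · exfalso
    rw [hj] at hspec
    have hne := hmin i (by omega)
    set a := z ^ (2 ^ i) with ha
    set b := w ^ (2 ^ i) with hb
    rw [pow_succ', pow_succ', ← ha, ← hb] at hspec
    have hab : b = -a := by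
      have h1 : (a - b) * (a + b) = 0 := by linear_combination hspec
      rcases mul_eq_zero.1 h1 with h2 | h2
      · exact absurd (sub_eq_zero.1 h2) hne
      · linear_combination h2
    have h1 := iter_eq hM hδ0 hδ hz hw h i
    rw [← ha, ← hb, hab] at h1
    have ha1 : ‖a‖ ≤ 1 := pow_le hz i
    have h2 := hM.near (k + i) a ha1
    have h3 := hM.near (k + i) (-a) (by rw [norm_neg]; exact ha1)
    rw [norm_neg] at h3
    have h4 : ‖2 * a‖ ≤ ‖Ψ (k + i) (-a) - -a‖ + ‖Ψ (k + i) a - a‖ := by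
      have e : 2 * a = (Ψ (k + i) (-a) - -a) - (Ψ (k + i) a - a) := by rw [h1]; ring
      calc ‖2 * a‖ = _ := by rw [e]
        _ ≤ _ := norm_sub_le _ _
    rw [norm_mul, Complex.norm_ofNat] at h4
    have h5 : 2 * δ * ‖a‖ ≤ 2 * (1 / 40) * ‖a‖ := by gcongr
    have h6 : ‖a‖ = 0 := by linarith [norm_nonneg a]
    rw [norm_eq_zero] at h6
    apply hne
    rw [hab, h6, neg_zero]

omit hM hδ in
theorem contOn {δ : ℝ} {L Ψ : ℕ → ℂ → ℂ} (hM : Maps δ L Ψ) (hδ : δ ≤ 1 / 40) (k : ℕ) :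
    ContinuousOn (Ψ k) (closedBall 0 1) := by
  intro z hz
  rw [ContinuousWithinAt, tendsto_iff_norm_sub_tendsto_zero]
  have h1 : Tendsto (fun w : ℂ => 6 * ‖w - z‖ ^ (1 - 20 * δ)) (𝓝[closedBall 0 1] z) (𝓝 0) := by
    have h2 : Continuous fun w : ℂ => 6 * ‖w - z‖ ^ (1 - 20 * δ) := by
      refine continuous_const.mul ?_
      exact (continuous_id.sub continuous_const).norm.rpow_const fun x => Or.inr (by linarith)
    have h3 := h2.tendsto z
    rw [sub_self, norm_zero, Real.zero_rpow (by linarith), mul_zero] at h3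
    exact h3.mono_left nhdsWithin_le_nhds
  refine squeeze_zero' (Eventually.of_forall fun _ => norm_nonneg _) ?_ h1
  filter_upwards [self_mem_nhdsWithin] with w hw
  exact hM.holder k w z (by simpa using hw) (by simpa using hz)

include hδ0 in
theorem isOpen_image (k : ℕ) {s : Set ℂ} (hs : IsOpen s) (hsub : s ⊆ ball 0 1) : IsOpen (Ψ k '' s) := by
  rcases ((hM.diff k).analyticOnNhd isOpen_ball).is_constant_or_isOpen
    (convex_ball (0 : ℂ) 1).isPreconnected with ⟨c, hc⟩ | h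
  · exfalso
    have h1 := hc 0 (by simp)
    have h2 := hc (1 / 2) (by rw [mem_ball, dist_zero_right]; norm_num)
    have h3 := injOn hM hδ0 hδ k (by simp) (by rw [mem_closedBall, dist_zero_right]; norm_num)
      (h1.trans h2.symm)
    norm_num at h3
  · exact h s hsub hs

end

end Pool.Agent.Helper25.JB
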